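import Mathlib

set_option autoImplicit false

namespace Pool.Agent.Q122.Tate

open Finset

/-- If `f0` lowers the degree by one and `f1` preserves it, then the rank of `f0` is at most the
rank of `f0 + f1`. -/
theorem rank_le_of_graded {k V : Type*} [Field k] [AddCommGroup V] [Module k V]
    [FiniteDimensional k V] (π : ℕ → V →ₗ[k] V) (H : ℕ → Set V)
    (hH : ∀ m v, v ∈ H m → ∀ j, π j v = if j = m then v else 0)
    (hspan : ∀ v : V, v ∈ Submodule.span k (⋃ m, H m))
    (f0 f1 : V →ₗ[k] V)
    (h00 : ∀ v, v ∈ H 0 → f0 v = 0)
    (h0 : ∀ m v, v ∈ H (m + 1) → f0 v ∈ H m)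
    (h1 : ∀ m v, v ∈ H m → f1 v ∈ H m) :
    Module.finrank k (LinearMap.range f0) ≤ Module.finrank k (LinearMap.range (f0 + f1)) := by
  classical
  set s : Set V := {y | ∃ m v, v ∈ H m ∧ f0 v = y} with hs
  have hspan_s : Submodule.span k s = LinearMap.range f0 := by
    apply le_antisymm
    · rw [Submodule.span_le]
      rintro _ ⟨m, v, _, rfl⟩
      exact ⟨v, rfl⟩
    · rintro _ ⟨v, rfl⟩
      have hv := hspan v
      induction hv using Submodule.span_induction with
      | mem x hx =>
        obtain ⟨m, hm⟩ := Set.mem_iUnion.1 hx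
        exact Submodule.subset_span ⟨m, x, hm, rfl⟩
      | zero => rw [map_zero]; exact Submodule.zero_mem _
      | add x y _ _ hx hy => rw [map_add]; exact Submodule.add_mem _ hx hy
      | smul a x _ hx => rw [map_smul]; exact Submodule.smul_mem _ _ hx
  obtain ⟨b, hbs, hbspan, hbli⟩ := exists_linearIndependent k s
  have hfin : b.Finite := hbli.setFinite
  haveI : Fintype b := hfin.fintype
  have hex : ∀ y : b, ∃ (m : ℕ) (v : V), v ∈ H (m + 1) ∧ f0 v = y := by
    intro y
    obtain ⟨m, v, hv, hy⟩ := hbs y.2
    rcases m with _ | m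
    · exfalso
      have : (y : V) = 0 := by rw [← hy, h00 v hv]
      exact hbli.ne_zero y this
    · exact ⟨m, v, hv, hy⟩
  choose deg w hw hwy using hex
  have hli : LinearIndependent k (fun y : b => (f0 + f1) (w y)) := by
    rw [linearIndependent_iff']
    intro t g hg
    have key : ∀ m : ℕ, ∀ y ∈ t, deg y = m → g y = 0 := by
      intro m
      induction m using Nat.strong_induction_on with
      | _ m ih =>
        have e1 := congrArg (π m) hg
        rw [map_zero, map_sum] at e1
        have e2 : ∀ y ∈ t, π m (g y • (f0 + f1) (w y)) = if deg y = m then g y • (y : V) else 0 := by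
          intro y hy
          rw [map_smul, LinearMap.add_apply, map_add]
          have a1 : π m (f0 (w y)) = if m = deg y then f0 (w y) else 0 :=
            hH _ _ (h0 _ _ (hw y)) m
          have a2 : π m (f1 (w y)) = if m = deg y + 1 then f1 (w y) else 0 :=
            hH _ _ (h1 _ _ (hw y)) m
          rw [a1, a2, hwy]
          by_cases c1 : deg y = m
          · rw [if_pos c1.symm, if_pos c1, if_neg (by omega), add_zero]
          · rw [if_neg (fun h => c1 h.symm), if_neg c1, zero_add]
            by_cases c2 : m = deg y + 1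
            · rw [ih (deg y) (by omega) y hy rfl, zero_smul]
            · rw [if_neg c2, smul_zero]
        rw [Finset.sum_congr rfl e2, ← Finset.sum_filter] at e1
        have e3 := (linearIndependent_iff'.1 hbli) (t.filter fun y => deg y = m) g e1
        intro y hy hym
        exact e3 y (Finset.mem_filter.2 ⟨hy, hym⟩)
    intro y hy
    exact key _ y hy rfl
  have c1 : Module.finrank k (LinearMap.range f0) = Fintype.card b := by
    rw [← hspan_s, ← hbspan, finrank_span_set_eq_card hbli, Set.toFinset_card]
  have c2 : LinearIndependent k (fun y : b =>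
      (⟨(f0 + f1) (w y), ⟨w y, rfl⟩⟩ : LinearMap.range (f0 + f1))) := by
    apply LinearIndependent.of_comp (LinearMap.range (f0 + f1)).subtype
    exact hli
  rw [c1]
  exact c2.fintype_card_le_finrank

end Pool.Agent.Q122.Tate
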