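import Mathlib

set_option autoImplicit false

namespace Pool.Agent.Q122.SqRing

open MvPolynomial

variable (k : Type*) [Field k] (d : ℕ)

/-- The ideal generated by the squares of the variables. -/
noncomputable def sqI : Ideal (MvPolynomial (Fin d) k) :=
  Ideal.span (Set.range (fun i : Fin d => (X i : MvPolynomial (Fin d) k) ^ 2))

theorem sqI_le (J : Ideal (MvPolynomial (Fin d) k))
    (h : ∀ i, (X i : MvPolynomial (Fin d) k) ^ 2 ∈ J) : sqI k d ≤ J :=
  Ideal.span_le.2 (by rintro _ ⟨i, rfl⟩; exact h i)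

/-- The ring `k[x_1,…,x_d]/(x_1^2,…,x_d^2)`. -/
abbrev Rg := MvPolynomial (Fin d) k ⧸ sqI k d

/-- The class of the variable. -/
noncomputable def xx (i : Fin d) : Rg k d := Ideal.Quotient.mk (sqI k d) (X i)

theorem xx_sq (i : Fin d) : xx k d i * xx k d i = 0 := by
  unfold xx
  rw [← map_mul, Ideal.Quotient.eq_zero_iff_mem, ← pow_two]
  exact Ideal.subset_span ⟨i, rfl⟩

theorem add_self [CharP k 2] (r : Rg k d) : r + r = 0 := by
  have h : (2 : k) = 0 := by exact_mod_cast CharP.cast_eq_zero k 2
  have h2 : (2 : Rg k d) = 0 := by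
    have := congrArg (algebraMap k (Rg k d)) h
    rwa [map_ofNat, map_zero] at this
  rw [← two_mul, h2, zero_mul]

/-- The exponent vector of a squarefree monomial. -/
noncomputable def ind (A : Finset (Fin d)) : Fin d →₀ ℕ := Finsupp.indicator A fun _ _ => 1

theorem ind_le_one (A : Finset (Fin d)) (i : Fin d) : ind d A i ≤ 1 := by
  unfold ind
  rw [Finsupp.indicator_apply]; split_ifs <;> simp

theorem ind_inj {A B : Finset (Fin d)} (h : ind d A = ind d B) : A = B := by
  ext i
  have := DFunLike.congr_fun h i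
  unfold ind at this
  rw [Finsupp.indicator_apply, Finsupp.indicator_apply] at this
  by_cases h1 : i ∈ A <;> by_cases h2 : i ∈ B <;> simp_all

theorem coeff_ind_mem {p : MvPolynomial (Fin d) k} (hp : p ∈ sqI k d) (A : Finset (Fin d)) :
    coeff (ind d A) p = 0 := by
  unfold sqI at hp
  obtain ⟨c, rfl⟩ := (Submodule.mem_span_range_iff_exists_fun _).1 hp
  rw [coeff_sum]
  refine Finset.sum_eq_zero fun i _ => ?_
  rw [smul_eq_mul, X_pow_eq_monomial, coeff_mul_monomial', if_neg]
  intro h
  have := h i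
  have h1 := ind_le_one d A i
  simp at this
  omega

/-- Squarefree monomials are linearly independent in the quotient. -/
theorem linInd : LinearIndependent k (fun A : Finset (Fin d) =>
    (Ideal.Quotient.mk (sqI k d) (monomial (ind d A) (1 : k)) : Rg k d)) := by
  rw [Fintype.linearIndependent_iff]
  intro g hg A
  have h1 : Ideal.Quotient.mk (sqI k d) (∑ B, g B • monomial (ind d B) (1 : k)) = 0 := by
    rw [map_sum, ← hg]
    refine Finset.sum_congr rfl fun B _ => ?_
    exact map_smul (Ideal.Quotient.mkₐ k (sqI k d)) _ _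
  rw [Ideal.Quotient.eq_zero_iff_mem] at h1
  have h2 := coeff_ind_mem k d h1 A
  rw [coeff_sum, Finset.sum_eq_single A] at h2
  · simpa using h2
  · intro B _ hB
    rw [coeff_smul, coeff_monomial, if_neg, smul_zero]
    intro h; exact hB (ind_inj d h)
  · simp

instance : Nontrivial (Rg k d) := ⟨⟨_, 0, (linInd k d).ne_zero ∅⟩⟩

theorem adjoin_top : Algebra.adjoin k (Set.range (xx k d)) = ⊤ := by
  have h : (Ideal.Quotient.mkₐ k (sqI k d)).range = ⊤ := by
    rw [AlgHom.range_eq_top]; exact Ideal.Quotient.mkₐ_surjective k _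
  rw [← h, ← Algebra.map_top, ← MvPolynomial.adjoin_range_X, AlgHom.map_adjoin, ← Set.range_comp]
  rfl

instance finiteRg : Module.Finite k (Rg k d) := by
  have h : (Algebra.adjoin k (Set.range (xx k d))).toSubmodule.FG := by
    apply fg_adjoin_of_finite (Set.finite_range _)
    rintro _ ⟨i, rfl⟩
    refine ⟨Polynomial.X ^ 2, Polynomial.monic_X_pow 2, ?_⟩
    simp [pow_two, xx_sq]
  rw [adjoin_top, Algebra.top_toSubmodule] at h
  exact ⟨h⟩

theorem two_pow_le : 2 ^ d ≤ Module.finrank k (Rg k d) := by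
  have := (linInd k d).fintype_card_le_finrank
  simpa using this

/-- The endomorphism killing the variables of index at least `s`. -/
noncomputable def rho (s : ℕ) : Rg k d →ₐ[k] Rg k d :=
  Ideal.Quotient.liftₐ (sqI k d) (aeval fun i : Fin d => if (i : ℕ) < s then xx k d i else 0) (by
    intro a ha
    have : sqI k d ≤ RingHom.ker (aeval fun i : Fin d => if (i : ℕ) < s then xx k d i else 0 :
        MvPolynomial (Fin d) k →ₐ[k] Rg k d) := by
      refine sqI_le k d _ fun i => ?_
      rw [RingHom.mem_ker, map_pow, aeval_X, pow_two]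
      split_ifs
      · exact xx_sq k d i
      · simp
    exact this ha)

theorem rho_mk (s : ℕ) (p : MvPolynomial (Fin d) k) : rho k d s (Ideal.Quotient.mk (sqI k d) p)
    = aeval (fun i : Fin d => if (i : ℕ) < s then xx k d i else 0) p := by
  unfold rho
  exact Ideal.Quotient.liftₐ_apply _ _ _ _

theorem rho_step (s : ℕ) (hs : s < d) (r : Rg k d) :
    ∃ e : Rg k d, rho k d (s + 1) r = rho k d s r + xx k d ⟨s, hs⟩ * e := by
  obtain ⟨p, rfl⟩ := Ideal.Quotient.mk_surjective r
  rw [rho_mk, rho_mk]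
  induction p using MvPolynomial.induction_on with
  | C a => exact ⟨0, by simp⟩
  | add p q hp hq =>
    obtain ⟨e, he⟩ := hp
    obtain ⟨f, hf⟩ := hq
    exact ⟨e + f, by rw [map_add, map_add, he, hf]; ring⟩
  | mul_X p i hp =>
    obtain ⟨e, he⟩ := hp
    rw [map_mul, map_mul, he, aeval_X, aeval_X]
    by_cases h : (i : ℕ) = s
    · have hi : i = ⟨s, hs⟩ := Fin.ext h
      rw [if_pos (by omega), if_neg (by omega), ← hi]
      exact ⟨aeval (fun i : Fin d => if (i : ℕ) < s then xx k d i else 0) p + xx k d i * e,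
        by rw [hi]; ring⟩
    · by_cases h' : (i : ℕ) < s
      · rw [if_pos (by omega), if_pos h']
        exact ⟨e * xx k d i, by ring⟩
      · rw [if_neg (by omega), if_neg h']
        exact ⟨0, by ring⟩

theorem rho_top (r : Rg k d) : rho k d d r = r := by
  obtain ⟨p, rfl⟩ := Ideal.Quotient.mk_surjective r
  rw [rho_mk]
  have h : (aeval fun i : Fin d => if (i : ℕ) < d then xx k d i else 0 :
      MvPolynomial (Fin d) k →ₐ[k] Rg k d) = Ideal.Quotient.mkₐ k (sqI k d) := by
    apply MvPolynomial.algHom_ext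
    intro i
    rw [aeval_X, if_pos i.2]
    rfl
  rw [h]; rfl

theorem rho_zero_nilp (r : Rg k d) (hr : IsNilpotent r) : rho k d 0 r = 0 := by
  obtain ⟨p, rfl⟩ := Ideal.Quotient.mk_surjective r
  have h1 : IsNilpotent (rho k d 0 (Ideal.Quotient.mk (sqI k d) p)) := hr.map _
  rw [rho_mk] at h1 ⊢
  have h2 : (aeval (fun i : Fin d => if (i : ℕ) < 0 then xx k d i else 0) p : Rg k d)
      = algebraMap k (Rg k d) (constantCoeff p) := by
    have : (fun i : Fin d => if (i : ℕ) < 0 then xx k d i else 0) = fun _ => 0 := by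
      funext i; simp
    rw [this]
    exact MvPolynomial.aeval_zero' p
  rw [h2] at h1 ⊢
  have h3 : IsNilpotent (constantCoeff p) :=
    (IsNilpotent.map_iff (FaithfulSMul.algebraMap_injective k (Rg k d))).1 h1
  rw [h3.eq_zero, map_zero]

theorem span_le_jac : Ideal.span (Set.range (xx k d)) ≤ Ideal.jacobson (⊥ : Ideal (Rg k d)) := by
  rw [Ideal.span_le]
  rintro _ ⟨i, rfl⟩
  apply Ideal.radical_le_jacobson
  exact ⟨2, by rw [pow_two, xx_sq]; exact Ideal.zero_mem _⟩

end Pool.Agent.Q122.SqRing
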