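import Mathlib

set_option autoImplicit false

namespace Pool.Agent.Q122.Tate

open Matrix

/-- One step of the recursive construction of Tate cycles. -/
theorem step {R : Type*} [CommRing R] (h2 : ∀ r : R, r + r = 0) {n : Type*} [Fintype n]
    (D' E Z' : Matrix n n R) (x : R) (hx : x * x = 0) (hD' : D' * D' = 0)
    (hD : (D' + x • E) * (D' + x • E) = 0)
    (hZ : D' * Z' + Z' * D'ᵀ = Z' + Z'ᵀ) :
    (D' + x • E) * (Z' + x • (E * Z'ᵀ)) + (Z' + x • (E * Z'ᵀ)) * (D' + x • E)ᵀ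
      = (Z' + x • (E * Z'ᵀ)) + (Z' + x • (E * Z'ᵀ))ᵀ := by
  have m2 : ∀ M : Matrix n n R, M + M = 0 := fun M => by ext i j; simp [h2]
  have neg : ∀ M N : Matrix n n R, M + N = 0 → M = N := fun M N h => by
    have : M + N + N = N := by rw [h, zero_add]
    rw [add_assoc, m2, add_zero] at this; exact this
  -- commutation up to x
  have hc : x • (D' * E) = x • (E * D') := by
    apply neg
    have := hD
    simp only [add_mul, mul_add, hD', Matrix.mul_smul, Matrix.smul_mul, smul_smul, hx, zero_smul,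
      add_zero, zero_add] at this
    rw [add_comm]; exact this
  have hZt : D' * Z'ᵀ + Z'ᵀ * D'ᵀ = Z' + Z'ᵀ := by
    have := congrArg Matrix.transpose hZ
    simp only [Matrix.transpose_add, Matrix.transpose_mul, Matrix.transpose_transpose] at this
    rw [add_comm] at this
    rw [this, add_comm]
  have key : x • (D' * (E * Z'ᵀ)) = x • (E * (D' * Z'ᵀ)) := by
    rw [← Matrix.mul_assoc, ← Matrix.smul_mul, hc, Matrix.smul_mul, Matrix.mul_assoc]
  have e1 : (D' + x • E) * (Z' + x • (E * Z'ᵀ)) = D' * Z' + x • (E * Z') + x • (E * (D' * Z'ᵀ)) := by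
    simp only [add_mul, mul_add, Matrix.mul_smul, Matrix.smul_mul, smul_smul, hx, zero_smul,
      add_zero]
    rw [key]
  have e2 : (Z' + x • (E * Z'ᵀ)) * (D' + x • E)ᵀ
      = Z' * D'ᵀ + x • (Z' * Eᵀ) + x • (E * (Z'ᵀ * D'ᵀ)) := by
    simp only [Matrix.transpose_add, Matrix.transpose_smul, add_mul, mul_add, Matrix.mul_smul,
      Matrix.smul_mul, smul_smul, hx, zero_smul, add_zero, Matrix.mul_assoc]
    abel
  have e3 : x • (E * (D' * Z'ᵀ)) + x • (E * (Z'ᵀ * D'ᵀ)) = x • (E * Z') + x • (E * Z'ᵀ) := by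
    rw [← smul_add, ← mul_add, hZt, mul_add, smul_add]
  have e4 : (Z' + x • (E * Z'ᵀ))ᵀ = Z'ᵀ + x • (Z' * Eᵀ) := by
    simp only [Matrix.transpose_add, Matrix.transpose_smul, Matrix.transpose_mul,
      Matrix.transpose_transpose]
  rw [e1, e2, e4]
  calc D' * Z' + x • (E * Z') + x • (E * (D' * Z'ᵀ))
        + (Z' * D'ᵀ + x • (Z' * Eᵀ) + x • (E * (Z'ᵀ * D'ᵀ)))
      = (D' * Z' + Z' * D'ᵀ) + x • (E * Z') + x • (Z' * Eᵀ)
          + (x • (E * (D' * Z'ᵀ)) + x • (E * (Z'ᵀ * D'ᵀ))) := by abel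
    _ = (Z' + Z'ᵀ) + x • (E * Z') + x • (Z' * Eᵀ) + (x • (E * Z') + x • (E * Z'ᵀ)) := by
        rw [hZ, e3]
    _ = (Z' + Z'ᵀ) + x • (Z' * Eᵀ) + x • (E * Z'ᵀ) + (x • (E * Z') + x • (E * Z')) := by abel
    _ = (Z' + Z'ᵀ) + x • (Z' * Eᵀ) + x • (E * Z'ᵀ) := by rw [m2, add_zero]
    _ = Z' + x • (E * Z'ᵀ) + (Z'ᵀ + x • (Z' * Eᵀ)) := by abel

/-- Existence of the Tate cycles for a square-zero matrix which is filtered by square-zero
elements `x 0, x 1, …`. -/
theorem cycles {R : Type*} [CommRing R] (h2 : ∀ r : R, r + r = 0) {n : Type*} [Fintype n]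
    [DecidableEq n] (d : ℕ) (x : Fin d → R) (hx : ∀ i, x i * x i = 0)
    (ρ : ℕ → R →+* R)
    (hρ : ∀ (s : ℕ) (hs : s < d) (r : R), ∃ e : R, ρ (s + 1) r = ρ s r + x ⟨s, hs⟩ * e)
    (D : Matrix n n R) (hD : D * D = 0) (h0 : ∀ i j, ρ 0 (D i j) = 0)
    (hd : ∀ r, ρ d r = r) (a : n) :
    ∃ Z : Matrix n n R, D * Z + Z * Dᵀ = Z + Zᵀ ∧
      ∀ i j, Z i j - (Matrix.single a a (1 : R)) i j ∈ Ideal.span (Set.range x) := by
  have main : ∀ s : ℕ, s ≤ d → ∃ Z : Matrix n n R,
      (D.map (ρ s)) * Z + Z * (D.map (ρ s))ᵀ = Z + Zᵀ ∧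
      ∀ i j, Z i j - (Matrix.single a a (1 : R)) i j ∈ Ideal.span (Set.range x) := by
    intro s
    induction s with
    | zero =>
      intro _
      refine ⟨Matrix.single a a 1, ?_, fun i j => by simp⟩
      have : D.map (ρ 0) = 0 := by ext i j; simp [h0]
      rw [this]
      simp only [zero_mul, Matrix.transpose_zero, mul_zero, add_zero]
      ext i j
      simp only [Matrix.zero_apply, Matrix.add_apply, Matrix.transpose_apply, Matrix.single_apply]
      by_cases h : a = i ∧ a = j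
      · rw [if_pos h, if_pos h.symm, h2]
      · rw [if_neg h, if_neg (fun h' => h h'.symm), add_zero]
    | succ s ih =>
      intro hs
      obtain ⟨Z, hZ, hZJ⟩ := ih (by omega)
      have hs' : s < d := by omega
      choose E hE using fun i j => hρ s hs' (D i j)
      have hDs : D.map (ρ (s + 1)) = D.map (ρ s) + x ⟨s, hs'⟩ • (Matrix.of E) := by
        ext i j; simp [hE]
      have hsq : ∀ t, D.map (ρ t) * D.map (ρ t) = 0 := by
        intro t
        rw [← Matrix.map_mul, hD]; ext i j; simp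
      refine ⟨Z + x ⟨s, hs'⟩ • (Matrix.of E * Zᵀ), ?_, ?_⟩
      · rw [hDs]
        exact step h2 (D.map (ρ s)) (Matrix.of E) Z (x ⟨s, hs'⟩) (hx _) (hsq s)
          (by rw [← hDs]; exact hsq _) hZ
      · intro i j
        have : (Z + x ⟨s, hs'⟩ • (Matrix.of E * Zᵀ)) i j - Matrix.single a a (1 : R) i j
            = (Z i j - Matrix.single a a (1 : R) i j)
              + x ⟨s, hs'⟩ * (Matrix.of E * Zᵀ) i j := by
          simp only [Matrix.add_apply, Matrix.smul_apply, smul_eq_mul]; ring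
        rw [this]
        exact Ideal.add_mem _ (hZJ i j)
          (Ideal.mul_mem_right _ _ (Ideal.subset_span ⟨_, rfl⟩))
  obtain ⟨Z, hZ, hZJ⟩ := main d le_rfl
  have : D.map (ρ d) = D := by ext i j; simp [hd]
  rw [this] at hZ
  exact ⟨Z, hZ, hZJ⟩

/-- The filtration property puts every element with `ρ 0 r = 0` in the ideal of the `x i`. -/
theorem mem_of_rho {R : Type*} [CommRing R] (d : ℕ) (x : Fin d → R)
    (ρ : ℕ → R →+* R)
    (hρ : ∀ (s : ℕ) (hs : s < d) (r : R), ∃ e : R, ρ (s + 1) r = ρ s r + x ⟨s, hs⟩ * e)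
    (hd : ∀ r, ρ d r = r) (r : R) (h0 : ρ 0 r = 0) : r ∈ Ideal.span (Set.range x) := by
  have main : ∀ s : ℕ, s ≤ d → ρ s r ∈ Ideal.span (Set.range x) := by
    intro s
    induction s with
    | zero => intro _; rw [h0]; exact Ideal.zero_mem _
    | succ s ih =>
      intro hs
      obtain ⟨e, he⟩ := hρ s (by omega) r
      rw [he]
      exact Ideal.add_mem _ (ih (by omega)) (Ideal.mul_mem_right _ _ (Ideal.subset_span ⟨_, rfl⟩))
  have := main d le_rfl
  rwa [hd] at this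

end Pool.Agent.Q122.Tate
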