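import Pool.Agent.Q122.Tate

set_option autoImplicit false

namespace Pool.Agent.Q122.Tate

open Matrix

variable {R : Type*} [CommRing R] {n : Type*} [Fintype n] [DecidableEq n]

/-- The differential of `P ⊗ P`, as an operator on matrices. -/
def F0 (D : Matrix n n R) : Matrix n n R →ₗ[R] Matrix n n R where
  toFun Z := D * Z + Z * Dᵀ
  map_add' X Y := by simp only [mul_add, add_mul]; abel
  map_smul' r X := by simp [Matrix.mul_smul, Matrix.smul_mul, smul_add]

/-- The norm operator `1 + τ`. -/
def Nm : Matrix n n R →ₗ[R] Matrix n n R where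
  toFun Z := Z + Zᵀ
  map_add' X Y := by simp only [Matrix.transpose_add]; abel
  map_smul' r X := by simp [Matrix.transpose_smul, smul_add]

/-- The Tate differential. -/
def F1 (D : Matrix n n R) : Matrix n n R →ₗ[R] Matrix n n R := F0 D + Nm

theorem F0_apply (D Z : Matrix n n R) : F0 D Z = D * Z + Z * Dᵀ := rfl
theorem Nm_apply (Z : Matrix n n R) : Nm Z = Z + Zᵀ := rfl
theorem F1_apply (D Z : Matrix n n R) : F1 D Z = D * Z + Z * Dᵀ + (Z + Zᵀ) := rfl

theorem F1_F1 (h2 : ∀ r : R, r + r = 0) (D : Matrix n n R) (hD : D * D = 0)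
    (Z : Matrix n n R) : F1 D (F1 D Z) = 0 := by
  have m2 : ∀ M : Matrix n n R, M + M = 0 := fun M => by ext i j; simp [h2]
  have hDt : Dᵀ * Dᵀ = 0 := by rw [← Matrix.transpose_mul, hD, Matrix.transpose_zero]
  have h1 : ∀ X : Matrix n n R, D * (D * X) = 0 := fun X => by
    rw [← Matrix.mul_assoc, hD, Matrix.zero_mul]
  have h3 : ∀ X : Matrix n n R, X * Dᵀ * Dᵀ = 0 := fun X => by
    rw [Matrix.mul_assoc, hDt, Matrix.mul_zero]
  simp only [F1_apply, mul_add, add_mul, Matrix.transpose_add, Matrix.transpose_mul,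
    Matrix.transpose_transpose, h1, h3, Matrix.mul_assoc, hDt, Matrix.mul_zero]
  have e : (0 : Matrix n n R) + D * (Z * Dᵀ) + (D * Z + D * Zᵀ) + (D * (Z * Dᵀ) + 0
      + (Z * Dᵀ + Zᵀ * Dᵀ)) + (D * Z + Z * Dᵀ + (Z + Zᵀ) + (Zᵀ * Dᵀ + D * Zᵀ + (Zᵀ + Z)))
      = (D * (Z * Dᵀ) + D * (Z * Dᵀ)) + (D * Z + D * Z) + (D * Zᵀ + D * Zᵀ)
        + (Z * Dᵀ + Z * Dᵀ) + (Zᵀ * Dᵀ + Zᵀ * Dᵀ) + (Z + Z) + (Zᵀ + Zᵀ) := by abel
  rw [e]; simp only [m2, add_zero]

theorem mem_smul_top (J : Ideal R) (M : Matrix n n R) (h : ∀ i j, M i j ∈ J) :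
    M ∈ J • (⊤ : Submodule R (Matrix n n R)) := by
  rw [Matrix.matrix_eq_sum_single M]
  refine Submodule.sum_mem _ fun i _ => Submodule.sum_mem _ fun j _ => ?_
  have : Matrix.single i j (M i j) = M i j • Matrix.single i j (1 : R) := by
    rw [Matrix.smul_single, smul_eq_mul, mul_one]
  rw [this]
  exact Submodule.smul_mem_smul (h i j) Submodule.mem_top

/-- The submodule spanned by the images of the matrix units below the diagonal contains the range
of the Tate differential. -/
theorem range_le [LinearOrder n] (h2 : ∀ r : R, r + r = 0) (J : Ideal R)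
    (hJ : J ≤ Ideal.jacobson ⊥) (D : Matrix n n R) (hD : D * D = 0) (hDJ : ∀ i j, D i j ∈ J)
    (hZ : ∀ a : n, ∃ Z : Matrix n n R, D * Z + Z * Dᵀ = Z + Zᵀ ∧
      ∀ i j, Z i j - (Matrix.single a a (1 : R)) i j ∈ J) :
    LinearMap.range (F1 D) ≤ Submodule.span R
      (Set.range fun p : {p : n × n // p.2 < p.1} => F1 D (Matrix.single p.1.1 p.1.2 1)) := by
  set W := Submodule.span R
      (Set.range fun p : {p : n × n // p.2 < p.1} => F1 D (Matrix.single p.1.1 p.1.2 1)) with hW
  set N' : Submodule R (Matrix n n R) := W.comap (F1 D) with hN'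
  have m2 : ∀ M : Matrix n n R, M + M = 0 := fun M => by ext i j; simp [h2]
  have hF0 : ∀ M : Matrix n n R, F0 D M ∈ J • (⊤ : Submodule R (Matrix n n R)) := by
    intro M
    apply mem_smul_top
    intro i j
    rw [F0_apply, Matrix.add_apply, Matrix.mul_apply, Matrix.mul_apply]
    refine Ideal.add_mem _ (Ideal.sum_mem _ fun c _ => Ideal.mul_mem_right _ _ (hDJ _ _))
      (Ideal.sum_mem _ fun c _ => Ideal.mul_mem_left _ _ (hDJ _ _))
  have hlow : ∀ i j : n, j < i → Matrix.single i j (1 : R) ∈ N' := by
    intro i j hij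
    rw [hN', Submodule.mem_comap, hW]
    exact Submodule.subset_span ⟨⟨(i, j), hij⟩, rfl⟩
  have hdiag : ∀ i : n, Matrix.single i i (1 : R) ∈ N' ⊔ J • (⊤ : Submodule R (Matrix n n R)) := by
    intro i
    obtain ⟨Z, hZ1, hZ2⟩ := hZ i
    have h1 : Z ∈ N' := by
      rw [hN', Submodule.mem_comap, F1_apply, hZ1, m2]; exact Submodule.zero_mem _
    have h3 : Matrix.single i i (1 : R) = Z - (Z - Matrix.single i i (1 : R)) := by abel
    rw [h3]
    refine Submodule.sub_mem _ (Submodule.mem_sup_left h1) (Submodule.mem_sup_right ?_)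
    apply mem_smul_top
    intro a b
    rw [Matrix.sub_apply]
    exact hZ2 a b
  have hup : ∀ i j : n, i < j →
      Matrix.single i j (1 : R) ∈ N' ⊔ J • (⊤ : Submodule R (Matrix n n R)) := by
    intro i j hij
    have h1 : F1 D (Matrix.single i j (1 : R)) ∈ N' := by
      rw [hN', Submodule.mem_comap, F1_F1 h2 D hD]; exact Submodule.zero_mem _
    have h3 : Matrix.single i j (1 : R) = F1 D (Matrix.single i j (1 : R))
        - F0 D (Matrix.single i j (1 : R)) - Matrix.single j i (1 : R) := by
      change _ = (F0 D (Matrix.single i j (1 : R)) + Nm (Matrix.single i j (1 : R))) - _ - _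
      rw [Nm_apply, Matrix.transpose_single]; abel
    rw [h3]
    exact Submodule.sub_mem _ (Submodule.sub_mem _ (Submodule.mem_sup_left h1)
      (Submodule.mem_sup_right (hF0 _))) (Submodule.mem_sup_left (hlow j i hij))
  have htop : (⊤ : Submodule R (Matrix n n R)) ≤ N' ⊔ J • (⊤ : Submodule R (Matrix n n R)) := by
    intro M _
    rw [Matrix.matrix_eq_sum_single M]
    refine Submodule.sum_mem _ fun i _ => Submodule.sum_mem _ fun j _ => ?_
    have : Matrix.single i j (M i j) = M i j • Matrix.single i j (1 : R) := by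
      rw [Matrix.smul_single, smul_eq_mul, mul_one]
    rw [this]
    apply Submodule.smul_mem
    rcases lt_trichotomy i j with h | h | h
    · exact hup i j h
    · subst h; exact hdiag i
    · exact Submodule.mem_sup_left (hlow i j h)
  have hfin : (⊤ : Submodule R (Matrix n n R)).FG := Module.Finite.fg_top
  have := Submodule.le_of_le_smul_of_le_jacobson_bot hfin hJ htop
  rintro _ ⟨M, rfl⟩
  exact this (Submodule.mem_top (x := M))

/-- Twice the number of pairs below the diagonal. -/
theorem card_low (m : ℕ) :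
    2 * Fintype.card {p : Fin m × Fin m // p.2 < p.1} + m = m * m := by
  have h1 : Fintype.card {p : Fin m × Fin m // p.2 < p.1}
      = (Finset.univ.filter fun p : Fin m × Fin m => p.2 < p.1).card := by
    rw [Fintype.card_subtype]
  have h2 : (Finset.univ.filter fun p : Fin m × Fin m => p.1 < p.2).card
      = (Finset.univ.filter fun p : Fin m × Fin m => p.2 < p.1).card := by
    apply Finset.card_bij' (fun p _ => p.swap) (fun p _ => p.swap) <;> simp
  have h3 : (Finset.univ.filter fun p : Fin m × Fin m => p.1 = p.2).card = m := by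
    have : (Finset.univ.filter fun p : Fin m × Fin m => p.1 = p.2)
        = Finset.univ.image (fun i : Fin m => (i, i)) := by
      ext ⟨a, b⟩; simp [eq_comm]
    rw [this, Finset.card_image_of_injective _ (fun a b h => by simpa using h)]
    simp
  have h4 : (Finset.univ : Finset (Fin m × Fin m)).card
      = (Finset.univ.filter fun p : Fin m × Fin m => p.1 < p.2).card
        + ((Finset.univ.filter fun p : Fin m × Fin m => p.1 = p.2).card
        + (Finset.univ.filter fun p : Fin m × Fin m => p.2 < p.1).card) := by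
    rw [← Finset.card_union_of_disjoint, ← Finset.card_union_of_disjoint]
    · congr 1
      ext ⟨a, b⟩
      simp only [Finset.mem_univ, Finset.mem_union, Finset.mem_filter, true_and, true_iff]
      exact lt_trichotomy a b
    · rw [Finset.disjoint_left]
      rintro ⟨a, b⟩ h h'
      simp only [Finset.mem_filter, Finset.mem_univ, true_and, Finset.mem_union] at h h'
      rcases h' with h' | h'
      · exact absurd h' h.ne
      · exact absurd h' h.asymm
    · rw [Finset.disjoint_left]
      rintro ⟨a, b⟩ h h'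
      simp only [Finset.mem_filter, Finset.mem_univ, true_and] at h h'
      exact absurd h h'.ne'
  have h5 : (Finset.univ : Finset (Fin m × Fin m)).card = m * m := by simp
  omega

/-- The rank over `k` of the Tate differential. -/
theorem finrank_range_F1 {k : Type*} [Field k] [Algebra k R] [Module.Finite k R] (m : ℕ)
    (h2 : ∀ r : R, r + r = 0) (J : Ideal R)
    (hJ : J ≤ Ideal.jacobson ⊥) (D : Matrix (Fin m) (Fin m) R) (hD : D * D = 0)
    (hDJ : ∀ i j, D i j ∈ J)
    (hZ : ∀ a : Fin m, ∃ Z : Matrix (Fin m) (Fin m) R, D * Z + Z * Dᵀ = Z + Zᵀ ∧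
      ∀ i j, Z i j - (Matrix.single a a (1 : R)) i j ∈ J) :
    2 * Module.finrank k (LinearMap.range ((F1 D).restrictScalars k)) + Module.finrank k R * m
      ≤ Module.finrank k R * (m * m) := by
  have hle := range_le h2 J hJ D hD hDJ hZ
  set G : ({p : Fin m × Fin m // p.2 < p.1} → R) →ₗ[R] Matrix (Fin m) (Fin m) R :=
    Fintype.linearCombination R
      (fun p : {p : Fin m × Fin m // p.2 < p.1} => F1 D (Matrix.single p.1.1 p.1.2 1)) with hG
  have hGr : LinearMap.range G = Submodule.span R
      (Set.range fun p : {p : Fin m × Fin m // p.2 < p.1} =>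
        F1 D (Matrix.single p.1.1 p.1.2 1)) := by
    rw [hG, Fintype.range_linearCombination]
  have hle' : LinearMap.range ((F1 D).restrictScalars k) ≤ LinearMap.range (G.restrictScalars k) := by
    rintro _ ⟨M, rfl⟩
    have : F1 D M ∈ LinearMap.range G := by rw [hGr]; exact hle ⟨M, rfl⟩
    obtain ⟨w, hw⟩ := this
    exact ⟨w, hw⟩
  have h1 : Module.finrank k (LinearMap.range ((F1 D).restrictScalars k))
      ≤ Module.finrank k (LinearMap.range (G.restrictScalars k)) :=
    Submodule.finrank_mono hle'
  have h3 : Module.finrank k (LinearMap.range (G.restrictScalars k))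
      ≤ Module.finrank k ({p : Fin m × Fin m // p.2 < p.1} → R) := LinearMap.finrank_range_le _
  have h4 : Module.finrank k ({p : Fin m × Fin m // p.2 < p.1} → R)
      = Fintype.card {p : Fin m × Fin m // p.2 < p.1} * Module.finrank k R := by
    rw [Module.finrank_pi_fintype]; simp
  have h5 := card_low m
  have h6 := h1.trans (h3.trans h4.le)
  calc 2 * Module.finrank k (LinearMap.range ((F1 D).restrictScalars k)) + Module.finrank k R * m
      ≤ 2 * (Fintype.card {p : Fin m × Fin m // p.2 < p.1} * Module.finrank k R)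
        + Module.finrank k R * m := by omega
    _ = Module.finrank k R * (2 * Fintype.card {p : Fin m × Fin m // p.2 < p.1} + m) := by ring
    _ = Module.finrank k R * (m * m) := by rw [h5]

end Pool.Agent.Q122.Tate
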